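import Pool.Agent.FAC.Core

/-!
# The anticanonical class is a sum of degrees of variables: the main step
-/

open MvPolynomial

namespace Pool.Agent.FAC

variable {ρ r : ℕ} {w : Fin r → (Fin ρ → ℤ)} {κ μ : Fin ρ → ℤ}
  {g : MvPolynomial (Fin r) ℂ}

/-- The case of a frame whose cone contains `κ` and on which `g` has no monomials. -/
theorem exists_weight_of_empty
    (hfree : ∀ z, eval z g = 0 → Semistable w κ z →
      Submodule.span ℤ (w '' {i | z i ≠ 0}) = ⊤)
    (F : Frame (rat w)) (hF : F.Feas (toQ κ))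
    (hg : ∀ n ∈ g.support, ∃ i, n i ≠ 0 ∧ i ∉ Set.range F.e) :
    ∃ n : Fin r →₀ ℕ, Finsupp.weight w n = κ := by
  classical
  let z : Fin r → ℂ := fun j => if j ∈ Set.range F.e then 1 else 0
  have hz : ∀ j, z j ≠ 0 ↔ j ∈ Set.range F.e := by
    intro j
    show (if j ∈ Set.range F.e then (1 : ℂ) else 0) ≠ 0 ↔ _
    split_ifs with h
    · simp only [ne_eq, one_ne_zero, not_false_eq_true, true_iff]
      exact h
    · simp only [ne_eq, not_true_eq_false, false_iff]
      exact h
  apply exists_weight F hF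
  have h1 := hfree z (by
    apply eval_eq_zero
    intro n hn
    obtain ⟨i, hi, hi'⟩ := hg n hn
    refine ⟨i, hi, ?_⟩
    by_contra h
    exact hi' ((hz i).mp h)) (semistable_of_feas F hF z fun a _ => (hz _).mpr ⟨a, rfl⟩)
  rw [← h1]
  congr 1
  ext v
  constructor
  · rintro ⟨a, rfl⟩
    exact ⟨F.e a, (hz _).mpr ⟨a, rfl⟩, rfl⟩
  · rintro ⟨j, hj, rfl⟩
    obtain ⟨a, rfl⟩ := (hz j).mp hj
    exact ⟨a, rfl⟩

/-- The case where `g` has a monomial on every frame whose cone contains `κ`. -/
theorem exists_weight_of_wall (hκ : κ = anticanonical w μ)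
    (hhom : IsWeightedHomogeneous w g μ)
    (hfree : ∀ z, eval z g = 0 → Semistable w κ z →
      Submodule.span ℤ (w '' {i | z i ≠ 0}) = ⊤)
    (F : Frame (rat w)) (hF : F.Feas (toQ κ)) (i : Fin ρ) (hi : 0 < F.co i (toQ μ))
    (hpiv : ∀ k, ∀ hk : 0 < F.co i (rat w k), (F.pivot i k hk.ne').Feas (toQ κ))
    (hmon : ∀ F : Frame (rat w), F.Feas (toQ κ) → ∃ n ∈ g.support,
      ∀ j, n j ≠ 0 → j ∈ Set.range F.e) :
    ∃ n : Fin r →₀ ℕ, Finsupp.weight w n = κ := by
  classical
  have hpos := wall_pos hhom hfree F hF i hi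
  obtain ⟨N, l, hN, hl⟩ := exists_integral F i
  have hNQ : (0 : ℚ) < N := by exact_mod_cast hN
  -- the variables on the wall
  let I₀ : Finset (Fin r) := (Finset.univ.erase i).image F.e
  have hI₀ : ∀ j, j ∈ I₀ ↔ ∃ a, a ≠ i ∧ F.e a = j := by
    intro j
    simp [I₀]
  have hI₀L : ∀ j ∈ I₀, F.co i (rat w j) = 0 := by
    intro j hj
    obtain ⟨a, ha, rfl⟩ := (hI₀ j).mp hj
    rw [F.co_e, if_neg ha]
  let Nn : Submodule ℤ (Fin ρ → ℤ) := Submodule.span ℤ (w '' I₀)
  have hlN : ∀ v ∈ Nn, l v = 0 := by
    intro v hv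
    induction hv using Submodule.span_induction with
    | mem x hx =>
      obtain ⟨j, hj, rfl⟩ := hx
      have h1 := hl (w j)
      have h2 : F.co i (toQ (w j)) = 0 := hI₀L j hj
      rw [h2, mul_zero] at h1
      exact_mod_cast h1
    | zero => rw [map_zero]
    | add x y _ _ hx hy => rw [map_add, hx, hy, add_zero]
    | smul c x _ hx => rw [map_smul, hx, smul_zero]
  let mk := Nn.mkQ
  let lb : ((Fin ρ → ℤ) ⧸ Nn) →ₗ[ℤ] ℤ := Nn.liftQ l (fun v hv => hlN v hv)
  have hlb : ∀ v, lb (mk v) = l v := fun v => Submodule.liftQ_apply _ _ _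
  -- the positive variables
  let P : Finset (Fin r) := Finset.univ.filter fun k => 0 < F.co i (rat w k)
  have hP : ∀ k, k ∈ P ↔ 0 < F.co i (rat w k) := fun k => by simp [P]
  have hlw : ∀ k, (l (w k) : ℚ) = N * F.co i (rat w k) := fun k => hl (w k)
  have hPne : P.Nonempty := by
    refine ⟨F.e i, ?_⟩
    rw [hP, F.co_e, if_pos rfl]
    exact one_pos
  have hPI : ∀ k ∈ P, k ∉ I₀ := by
    intro k hk hk'
    rw [hP, hI₀L k hk'] at hk
    exact lt_irrefl _ hk
  -- the frames with index in `P`
  have hrange : ∀ k, ∀ hk : 0 < F.co i (rat w k), ∀ j,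
      j ∈ Set.range (F.pivot i k hk.ne').e ↔ j ∈ insert k I₀ := by
    intro k hk j
    rw [Finset.mem_insert, hI₀]
    constructor
    · rintro ⟨a, rfl⟩
      by_cases ha : a = i
      · left
        rw [ha, Frame.pivot_e_self]
      · right
        exact ⟨a, ha, (Frame.pivot_e_ne F i k hk.ne' ha).symm⟩
    · rintro (rfl | ⟨a, ha, rfl⟩)
      · exact ⟨i, Frame.pivot_e_self F i j hk.ne'⟩
      · exact ⟨a, Frame.pivot_e_ne F i k hk.ne' ha⟩
  have hmonP : ∀ k, ∃ n : Fin r →₀ ℕ, 0 < F.co i (rat w k) → n ∈ g.support ∧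
      ∀ j, n j ≠ 0 → j ∈ insert k I₀ := by
    intro k
    by_cases hk : 0 < F.co i (rat w k)
    · obtain ⟨n, hn, hn'⟩ := hmon _ (hpiv k hk)
      exact ⟨n, fun _ => ⟨hn, fun j hj => (hrange k hk j).mp (hn' j hj)⟩⟩
    · exact ⟨0, fun h => absurd h hk⟩
  choose n hn using hmonP
  have hmul : ∀ k ∈ P, (n k k) • mk (w k) = mk μ := by
    intro k hk
    obtain ⟨hs, hs'⟩ := hn k ((hP k).mp hk)
    have h1 : Finsupp.weight w (n k) = μ := hhom (mem_support_iff.mp hs)
    rw [← h1, weight_eq, map_sum, Finset.sum_eq_single k]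
    · rw [map_nsmul]
    · intro j _ hjk
      by_cases hj : n k j = 0
      · rw [hj, zero_smul, map_zero]
      · have h2 := hs' j hj
        rw [Finset.mem_insert] at h2
        have h3 : w j ∈ Nn := Submodule.subset_span ⟨j, h2.resolve_left hjk, rfl⟩
        have h4 : mk (w j) = 0 := (Submodule.Quotient.mk_eq_zero Nn).mpr h3
        rw [map_nsmul, h4, smul_zero]
    · intro h
      exact absurd (Finset.mem_univ k) h
  have hlμ : 0 < l μ := by
    have h1 := hl μ
    have h2 : (0 : ℚ) < l μ := by rw [h1]; positivity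
    exact_mod_cast h2
  have hnk : ∀ k ∈ P, n k k ≠ 0 := by
    intro k hk h0
    have h1 := hmul k hk
    rw [h0, zero_smul] at h1
    have h2 := hlb μ
    rw [← h1, map_zero] at h2
    omega
  -- two positive variables
  have hpair : ∀ a ∈ P, ∀ b ∈ P, a ≠ b → ∀ z : (Fin ρ → ℤ) ⧸ Nn,
      ∃ p q : ℤ, z = p • mk (w a) + q • mk (w b) := by
    intro a ha b hb hab y
    have haS : a ∉ insert b I₀ := by
      rw [Finset.mem_insert]
      rintro (h | h)
      · exact hab h
      · exact hPI a ha h
    obtain ⟨hsa, hsa'⟩ := hn a ((hP a).mp ha)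
    obtain ⟨hsb, hsb'⟩ := hn b ((hP b).mp hb)
    have hkb := (hP b).mp hb
    obtain ⟨z, hz0, hz⟩ := exists_zero g (insert b I₀) a haS (n b) (n a) hsb hsa hsb'
      (fun j hj => by
        have := hsa' j hj
        rw [Finset.mem_insert] at this ⊢
        rcases this with h | h
        · exact Or.inl h
        · exact Or.inr (Finset.mem_insert_of_mem h)) (hnk a ha) (by
        intro m hm m' hm' hms hms' hmm
        have e1 : Finsupp.weight w m = μ := hhom (mem_support_iff.mp hm)
        have e2 : Finsupp.weight w m' = μ := hhom (mem_support_iff.mp hm')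
        have e3 : ∑ j, ((m j : ℚ) - m' j) • rat w j = 0 := by
          simp only [sub_smul, Finset.sum_sub_distrib]
          rw [← toQ_weight, ← toQ_weight, e1, e2, sub_self]
        ext j
        by_cases hj : j ∈ insert b I₀
        · have hj' := (hrange b hkb j).mpr hj
          obtain ⟨c, hc⟩ := hj'
          have e4 := co_support (F.pivot i b hkb.ne') (fun j => (m j : ℚ) - m' j) (by
            intro j' hj'
            rw [hrange b hkb]
            by_contra hcon
            have e5 : m j' = m' j' := by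
              by_cases hja : j' = a
              · rw [hja, hmm]
              · have e6 : m j' = 0 := by
                  by_contra h
                  rcases Finset.mem_insert.mp (hms j' h) with h7 | h7
                  · exact hja h7
                  · exact hcon h7
                have e7 : m' j' = 0 := by
                  by_contra h
                  rcases Finset.mem_insert.mp (hms' j' h) with h7 | h7
                  · exact hja h7
                  · exact hcon h7
                rw [e6, e7]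
            apply hj'
            rw [e5, sub_self]) c
          rw [e3, map_zero, hc] at e4
          have e8 : (m j : ℚ) = m' j := by linarith
          exact_mod_cast e8
        · by_cases hja : j = a
          · rw [hja, hmm]
          · have e6 : m j = 0 := by
              by_contra h
              rcases Finset.mem_insert.mp (hms j h) with h7 | h7
              · exact hja h7
              · exact hj h7
            have e7 : m' j = 0 := by
              by_contra h
              rcases Finset.mem_insert.mp (hms' j h) with h7 | h7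
              · exact hja h7
              · exact hj h7
            rw [e6, e7])
    have hss : Semistable w κ z := by
      apply semistable_of_feas (F.pivot i b hkb.ne') (hpiv b hkb)
      intro c _
      rw [hz]
      exact Finset.mem_insert_of_mem ((hrange b hkb _).mp ⟨c, rfl⟩)
    have hfr := hfree z hz0 hss
    obtain ⟨v, rfl⟩ := Submodule.mkQ_surjective Nn y
    have hv : v ∈ Submodule.span ℤ (w '' {j | z j ≠ 0}) := by rw [hfr]; trivial
    have hmem : mk v ∈ Submodule.span ℤ {mk (w a), mk (w b)} := by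
      induction hv using Submodule.span_induction with
      | mem x hx =>
        obtain ⟨j, hj, rfl⟩ := hx
        have h1 := (hz j).mp hj
        rw [Finset.mem_insert, Finset.mem_insert] at h1
        rcases h1 with h1 | h1 | h1
        · rw [h1]
          exact Submodule.subset_span (by simp)
        · rw [h1]
          exact Submodule.subset_span (by simp)
        · have h3 : w j ∈ Nn := Submodule.subset_span ⟨j, h1, rfl⟩
          have h4 : mk (w j) = 0 := (Submodule.Quotient.mk_eq_zero Nn).mpr h3
          rw [h4]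
          exact Submodule.zero_mem _
      | zero => rw [map_zero]; exact Submodule.zero_mem _
      | add x y _ _ hx hy => rw [map_add]; exact Submodule.add_mem _ hx hy
      | smul c x _ hx => rw [map_smul]; exact Submodule.smul_mem _ _ hx
    obtain ⟨p, q, hpq⟩ := Submodule.mem_span_pair.mp hmem
    exact ⟨p, q, hpq.symm⟩
  -- the arithmetic lemma
  have hsum : l μ < ∑ k ∈ P, l (w k) := by
    have h1 : l κ = ∑ k, l (w k) - l μ := by
      rw [hκ, anticanonical, map_sub, map_sum]
    have h2 : 0 < l κ := by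
      have h3 : (0 : ℚ) < l κ := by rw [hl κ]; positivity
      exact_mod_cast h3
    have h4 : ∑ k, l (w k) ≤ ∑ k ∈ P, l (w k) := by
      rw [← Finset.sum_filter_add_sum_filter_not Finset.univ
        (fun k => 0 < F.co i (rat w k))]
      have h5 : ∑ k ∈ Finset.univ.filter (fun k => ¬ 0 < F.co i (rat w k)), l (w k) ≤ 0 := by
        apply Finset.sum_nonpos
        intro k hk
        rw [Finset.mem_filter, not_lt] at hk
        have h6 : (l (w k) : ℚ) ≤ 0 := by
          rw [hlw]
          exact mul_nonpos_of_nonneg_of_nonpos hNQ.le hk.2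
        exact_mod_cast h6
      have h7 : ∑ k ∈ Finset.univ.filter (fun k => 0 < F.co i (rat w k)), l (w k) =
          ∑ k ∈ P, l (w k) := rfl
      rw [h7]
      linarith
    linarith
  obtain ⟨k, hk, hgen⟩ := exists_generator P hPne (fun k => mk (w k)) lb.toAddMonoidHom
    (by
      intro k hk
      show 0 < lb (mk (w k))
      rw [hlb]
      have h1 : (0 : ℚ) < l (w k) := by
        rw [hlw]
        exact mul_pos hNQ ((hP k).mp hk)
      exact_mod_cast h1) hpair (mk μ) (fun k => n k k) hmul
    (by
      show 0 < lb (mk μ)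
      rw [hlb]
      exact hlμ)
    (by
      show lb (mk μ) < ∑ k ∈ P, lb (mk (w k))
      simp only [hlb]
      exact hsum)
  have hk' := (hP k).mp hk
  apply exists_weight (F.pivot i k hk'.ne') (hpiv k hk')
  rw [eq_top_iff]
  intro v _
  have hle : Nn ≤ Submodule.span ℤ
      (Set.range fun a => w ((F.pivot i k hk'.ne').e a)) := by
    rw [Submodule.span_le]
    rintro _ ⟨j, hj, rfl⟩
    obtain ⟨a, ha⟩ := (hrange k hk' j).mpr (Finset.mem_insert_of_mem hj)
    exact Submodule.subset_span ⟨a, by rw [← ha]⟩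
  have hwk : w k ∈ Submodule.span ℤ
      (Set.range fun a => w ((F.pivot i k hk'.ne').e a)) :=
    Submodule.subset_span ⟨i, by
      show w ((F.pivot i k hk'.ne').e i) = w k
      rw [Frame.pivot_e_self]⟩
  obtain ⟨p, hp⟩ := hgen (mk v)
  have h1 : v - p • w k ∈ Nn := by
    rw [← Submodule.Quotient.mk_eq_zero Nn]
    show mk (v - p • w k) = 0
    rw [map_sub, map_smul, hp, sub_self]
  have h2 : v = (v - p • w k) + p • w k := by abel
  rw [h2]
  exact Submodule.add_mem _ (hle h1) (Submodule.smul_mem _ _ hwk)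

theorem zero_notMem_support (hX : IsFanoHypersurface w μ g) :
    (0 : Fin r →₀ ℕ) ∉ g.support := by
  intro h
  have hμ : Finsupp.weight w (0 : Fin r →₀ ℕ) = μ :=
    hX.homogeneous (mem_support_iff.mp h)
  rw [map_zero] at hμ
  obtain ⟨h', hh'⟩ := hX.pointed
  have hsupp : ∀ m ∈ g.support, m = 0 := by
    intro m hm
    have h1 : Finsupp.weight w m = μ := hX.homogeneous (mem_support_iff.mp hm)
    rw [← hμ, weight_eq] at h1
    have h2 := congrArg h' h1
    rw [map_sum, map_zero] at h2
    have h3 : ∀ i ∈ Finset.univ, 0 ≤ h' (m i • w i) := by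
      intro i _
      rw [map_nsmul, nsmul_eq_mul]
      exact mul_nonneg (by positivity) (hh' i).le
    rw [Finset.sum_eq_zero_iff_of_nonneg h3] at h2
    ext i
    have h4 := h2 i (Finset.mem_univ i)
    rw [map_nsmul, nsmul_eq_mul, mul_eq_zero] at h4
    rcases h4 with h4 | h4
    · rw [Finsupp.zero_apply]
      exact_mod_cast h4
    · exact absurd h4 (hh' i).ne'
  have hC : g = C (coeff 0 g) := by
    ext m
    rw [coeff_C]
    split_ifs with h1
    · rw [← h1]
    · rw [← notMem_support_iff]
      intro h2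
      exact h1 (hsupp m h2).symm
  have hu : IsUnit g := by
    rw [hC]
    apply IsUnit.map C
    exact isUnit_iff_ne_zero.mpr (mem_support_iff.mp h)
  apply hX.prime.ne_top
  rw [Ideal.span_singleton_eq_top]
  exact hu

/-- The anticanonical class of a smooth Fano variety with hypersurface Cox ring is a sum of
degrees of variables. -/
theorem exists_weight_anticanonical (hX : IsFanoHypersurface w μ g) :
    ∃ n : Fin r →₀ ℕ, Finsupp.weight w n = anticanonical w μ := by
  classical
  by_cases hstar : ∃ F : Frame (rat w), F.Feas (toQ (anticanonical w μ)) ∧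
      ∀ n ∈ g.support, ∃ i, n i ≠ 0 ∧ i ∉ Set.range F.e
  · obtain ⟨F, hF, hg⟩ := hstar
    exact exists_weight_of_empty hX.free F hF hg
  push Not at hstar
  obtain ⟨z₀, hz₀, m, hm, n₀, hn₀, hn₀'⟩ := hX.nonempty
  have hspan : Submodule.span ℚ (Set.range (rat w)) = ⊤ :=
    span_rat (hX.free z₀ hz₀ ⟨m, hm, n₀, hn₀, hn₀'⟩)
  have hm0 : (m : ℚ) ≠ 0 := by exact_mod_cast hm.ne'
  have hκ : toQ (anticanonical w μ) = ∑ i, ((n₀ i : ℚ) / m) • rat w i := by
    have h1 : (m : ℚ) • toQ (anticanonical w μ) = ∑ i, (n₀ i : ℚ) • rat w i := by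
      rw [← toQ_nsmul, ← hn₀, toQ_weight]
    have h2 : toQ (anticanonical w μ) = (m : ℚ)⁻¹ • ((m : ℚ) • toQ (anticanonical w μ)) := by
      rw [smul_smul, inv_mul_cancel₀ hm0, one_smul]
    rw [h2, h1, Finset.smul_sum]
    exact Finset.sum_congr rfl fun i _ => by rw [smul_smul, div_eq_inv_mul]
  obtain ⟨c', hc', hnear, hgen⟩ := exists_generic (W := rat w) (toQ (anticanonical w μ))
    (toQ μ) (fun i => (n₀ i : ℚ) / m) (fun i => by positivity) hκ
  obtain ⟨F₀, hF₀⟩ := exists_feas hspan c' hc'
  have hex : ∃ F : Frame (rat w), F.Feas (∑ i, c' i • rat w i) ∧ ∃ i, 0 < F.co i (toQ μ) := by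
    refine ⟨F₀, hF₀, ?_⟩
    obtain ⟨n, hn, hns⟩ := hstar F₀ (hnear F₀ hF₀)
    have h0 : n ≠ 0 := by
      rintro rfl
      exact zero_notMem_support hX hn
    obtain ⟨j, hj⟩ : ∃ j, n j ≠ 0 := by
      by_contra hcon
      push Not at hcon
      exact h0 (Finsupp.ext hcon)
    obtain ⟨a, rfl⟩ := hns j hj
    refine ⟨a, ?_⟩
    rw [co_degree hX.homogeneous F₀ hn hns a]
    have : 0 < n (F₀.e a) := Nat.pos_of_ne_zero hj
    exact_mod_cast this
  obtain ⟨F, hF, i, hi, hpiv⟩ := Frame.exists_wall (∑ i, c' i • rat w i) (toQ μ) hgen hex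
  exact exists_weight_of_wall rfl hX.homogeneous hX.free F (hnear F hF) i hi
    (fun k hk => hnear _ (hpiv k hk)) hstar

end Pool.Agent.FAC
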