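import Pool.Agent.FAI.Bound
import Pool.Agent.FAC.Weight

/-!
# The alpha invariant of a smooth Fano variety with hypersurface Cox ring
-/

open scoped ENNReal NNReal
open MvPolynomial

namespace Pool.Agent.FAC

/-- A section which vanishes along a prime divisor meeting `U` bounds the threshold. -/
theorem lct_le_one {R : Type*} [CommRing R] [IsDomain R] [IsNoetherianRing R]
    [IsIntegrallyClosed R] (J : Ideal R) {F : R} (hF : F ≠ 0) (P : Ideal R) [P.IsPrime]
    (hFP : F ∈ P) (h1 : P.height ≤ 1) (hJ : ¬ J ≤ P) : lct J 1 F ≤ 1 := by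
  have h0 : P ≠ ⊥ := by
    rintro rfl
    exact hF (by simpa using hFP)
  have hV : IsDiscreteValuationRing (FAI.locAt P) := FAI.locAt_dvr P h0 h1
  have hE : Algebra.EssFiniteType R (FAI.locAt P) :=
    Algebra.EssFiniteType.of_isLocalization (FAI.locAt P) P.primeCompl
  have hcm : (IsLocalRing.maximalIdeal (FAI.locAt P)).comap
      (algebraMap R (FAI.locAt P)) = P :=
    IsLocalization.AtPrime.under_maximalIdeal (FAI.locAt P) P
  unfold lct
  refine iSup₂_le ?_
  intro t ht
  have key := ht (FAI.locAt P) (by rw [hcm]; exact hJ)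
  rw [FAI.logDisc_locAt] at key
  have hval : (1 : ℕ∞) ≤ IsDiscreteValuationRing.addVal (FAI.locAt P)
      (algebraMap R (FAI.locAt P) F) := by
    rw [Order.one_le_iff_ne_zero]
    intro hz
    have hu := IsDiscreteValuationRing.addVal_eq_zero_iff.mp hz
    have : F ∈ (IsLocalRing.maximalIdeal (FAI.locAt P)).comap
        (algebraMap R (FAI.locAt P)) := by
      rw [hcm]; exact hFP
    exact (IsLocalRing.mem_maximalIdeal _).mp (Ideal.mem_comap.mp this) hu
  calc (t : ℝ≥0∞) = t * ((1 : ℕ∞) : ℝ≥0∞) := by simp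
    _ ≤ t * (IsDiscreteValuationRing.addVal (FAI.locAt P)
      (algebraMap R (FAI.locAt P) F) : ℝ≥0∞) := by gcongr
    _ ≤ _ := key
    _ = 1 := by simp

variable {ρ r : ℕ} {w : Fin r → (Fin ρ → ℤ)} {μ : Fin ρ → ℤ}
  {g : MvPolynomial (Fin r) ℂ}

theorem eval_zero (hX : IsFanoHypersurface w μ g) : eval (0 : Fin r → ℂ) g = 0 := by
  apply eval_eq_zero
  intro n hn
  by_contra hcon
  push Not at hcon
  have h0 : n = 0 := by
    ext i
    by_contra h
    exact hcon i h rfl
  rw [h0] at hn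
  exact zero_notMem_support hX hn

/-- The anticanonical class is not zero. -/
theorem anticanonical_ne_zero (hX : IsFanoHypersurface w μ g) : anticanonical w μ ≠ 0 := by
  intro h
  have h1 := hX.free 0 (eval_zero hX) ⟨1, one_pos, 0, by rw [map_zero, h, smul_zero],
    fun i hi => absurd rfl hi⟩
  have h2 : (w '' {i | (0 : Fin r → ℂ) i ≠ 0}) = ∅ := by
    rw [Set.image_eq_empty]
    ext i
    simp
  rw [h2, Submodule.span_empty] at h1
  obtain ⟨n, hn⟩ : ∃ n, n ∈ g.support := by
    have := support_nonempty.mpr hX.ne_zero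
    exact this
  have hn0 : n ≠ 0 := by
    rintro rfl
    exact zero_notMem_support hX hn
  obtain ⟨i, -⟩ : ∃ i, n i ≠ 0 := by
    by_contra hcon
    push Not at hcon
    exact hn0 (Finsupp.ext hcon)
  obtain ⟨h', hh'⟩ := hX.pointed
  have h3 : w i ∈ (⊥ : Submodule ℤ (Fin ρ → ℤ)) := by
    rw [h1]
    trivial
  rw [Submodule.mem_bot] at h3
  have h4 := hh' i
  rw [h3, map_zero] at h4
  exact lt_irrefl _ h4

/-- The class of a variable is not a unit. -/
theorem not_isUnit_var (hX : IsFanoHypersurface w μ g) (i : Fin r) :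
    ¬ IsUnit (Ideal.Quotient.mk (Ideal.span {g}) (X i)) := by
  intro h
  let φ : CoxRing g →+* ℂ := Ideal.Quotient.lift (Ideal.span {g}) (eval (0 : Fin r → ℂ)) (by
    intro a ha
    obtain ⟨b, rfl⟩ := Ideal.mem_span_singleton'.mp ha
    rw [map_mul, eval_zero hX, mul_zero])
  have h1 := h.map φ
  have h2 : φ (Ideal.Quotient.mk (Ideal.span {g}) (X i)) = 0 := by
    show Ideal.Quotient.lift (Ideal.span {g}) (eval (0 : Fin r → ℂ)) _ _ = 0
    rw [Ideal.Quotient.lift_mk, eval_X]
    rfl
  rw [h2] at h1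
  exact not_isUnit_zero h1

theorem main (hX : IsFanoHypersurface w μ g) [hp : (Ideal.span {g}).IsPrime] :
    (∃ n : Fin r →₀ ℕ, Finsupp.weight w n = anticanonical w μ ∧
      Ideal.Quotient.mk (Ideal.span {g}) (monomial n 1) ≠ 0) ∧
    alpha w (anticanonical w μ) g ≤ 1 := by
  classical
  obtain ⟨n, hn⟩ := exists_weight_anticanonical hX
  have hprod : (monomial n (1 : ℂ)) = ∏ i, X i ^ n i := by
    rw [monomial_eq, C_1, one_mul, Finsupp.prod_fintype _ _ (fun i => pow_zero _)]
  have hne : Ideal.Quotient.mk (Ideal.span {g}) (monomial n 1) ≠ 0 := by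
    rw [Ne, Ideal.Quotient.eq_zero_iff_mem, hprod]
    intro h
    obtain ⟨i, -, hi⟩ := (hp.prod_mem_iff).mp h
    exact hX.var_ne i (hp.mem_of_pow_mem _ hi)
  refine ⟨⟨n, hn, hne⟩, ?_⟩
  have hnor := hX.normal
  have hn0 : n ≠ 0 := by
    rintro rfl
    rw [map_zero] at hn
    exact anticanonical_ne_zero hX hn.symm
  obtain ⟨i, hi⟩ : ∃ i, n i ≠ 0 := by
    by_contra hcon
    push Not at hcon
    exact hn0 (Finsupp.ext hcon)
  set x : CoxRing g := Ideal.Quotient.mk (Ideal.span {g}) (X i) with hx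
  have htop : Ideal.span {x} ≠ ⊤ := by
    intro h
    exact not_isUnit_var hX i (Ideal.span_singleton_eq_top.mp h)
  obtain ⟨P, hP⟩ := Ideal.nonempty_minimalPrimes htop
  have hPp : P.IsPrime := hP.1.1
  have hxP : x ∈ P := hP.1.2 (Ideal.mem_span_singleton_self x)
  have hht : P.height ≤ 1 :=
    Ideal.height_le_one_of_isPrincipal_of_mem_minimalPrimes (Ideal.span {x}) P hP
  have hFP : Ideal.Quotient.mk (Ideal.span {g}) (monomial n 1) ∈ P := by
    rw [hprod, map_prod]
    apply Ideal.prod_mem P (Finset.mem_univ i)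
    rw [map_pow]
    exact Ideal.pow_mem_of_mem P hxP _ (Nat.pos_of_ne_zero hi)
  have hsec : Ideal.Quotient.mk (Ideal.span {g}) (monomial n 1) ∈
      sections w (anticanonical w μ) g 1 := by
    refine ⟨monomial n 1, ?_, rfl⟩
    rw [one_smul]
    exact isWeightedHomogeneous_monomial w n 1 hn
  unfold alpha
  refine iInf_le_of_le 1 (iInf_le_of_le one_pos (iInf_le_of_le _ (iInf_le_of_le hsec
    (iInf_le_of_le hne ?_))))
  exact lct_le_one _ hne P hFP hht (hX.small P hPp hht)

end Pool.Agent.FAC
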