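import Pool.Agent.FAC.Frame

/-!
# Carathéodory's theorem for cones, and generic perturbations
-/

open scoped Topology

namespace Pool.Agent.FAC

variable {ρ r : ℕ} {W : Fin r → (Fin ρ → ℚ)}

/-- An element of the cone of the vectors `W i` is in the cone of a frame. -/
theorem exists_feas (hspan : Submodule.span ℚ (Set.range W) = ⊤) (c : Fin r → ℚ)
    (hc : ∀ i, 0 ≤ c i) : ∃ F : Frame W, F.Feas (∑ i, c i • W i) := by
  classical
  set u := ∑ i, c i • W i with hu
  let Q : Set (Finset (Fin r)) := {S | ∃ c' : Fin r → ℚ, (∀ i, 0 ≤ c' i) ∧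
    (∀ i, i ∉ S → c' i = 0) ∧ ∑ i, c' i • W i = u}
  have hQ : Q.Nonempty := ⟨Finset.univ, c, hc, fun i hi => absurd (Finset.mem_univ i) hi, rfl⟩
  obtain ⟨S, ⟨c', hc', hcS, hcu⟩, hmin⟩ :=
    Set.exists_min_image Q Finset.card (Set.toFinite Q) hQ
  have hli : LinearIndepOn ℚ W (S : Set (Fin r)) := by
    rw [linearIndepOn_finset_iff]
    intro f hf j hj
    by_contra hfj
    obtain ⟨d, hd, hdj⟩ : ∃ d : Fin r → ℚ, ∑ i ∈ S, d i • W i = 0 ∧ 0 < d j := by
      rcases lt_or_gt_of_ne hfj with h | h
      · refine ⟨fun i => - f i, ?_, by simpa using h⟩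
        simp only [neg_smul, Finset.sum_neg_distrib, hf, neg_zero]
      · exact ⟨f, hf, h⟩
    obtain ⟨i₀, hi₀, hi₀min⟩ := Finset.exists_min_image (S.filter fun i => 0 < d i)
      (fun i => c' i / d i) ⟨j, Finset.mem_filter.mpr ⟨hj, hdj⟩⟩
    rw [Finset.mem_filter] at hi₀
    set t := c' i₀ / d i₀ with ht
    have ht0 : 0 ≤ t := div_nonneg (hc' _) hi₀.2.le
    have hmem : S.erase i₀ ∈ Q := by
      refine ⟨fun i => if i ∈ S then c' i - t * d i else 0, ?_, ?_, ?_⟩
      · intro i
        simp only
        split_ifs with h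
        · rcases le_or_gt (d i) 0 with h1 | h1
          · have := mul_nonpos_of_nonneg_of_nonpos ht0 h1
            have := hc' i
            linarith
          · have h2 := hi₀min i (Finset.mem_filter.mpr ⟨h, h1⟩)
            rw [le_div_iff₀ h1] at h2
            linarith
        · exact le_rfl
      · intro i hi
        simp only
        split_ifs with h
        · have h1 : i = i₀ := by
            by_contra h2
            exact hi (Finset.mem_erase.mpr ⟨h2, h⟩)
          rw [h1, ht]
          have h3 := hi₀.2.ne'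
          field_simp
          ring
        · rfl
      · have h1 : ∑ i, (if i ∈ S then c' i - t * d i else 0) • W i =
            ∑ i ∈ S, (c' i - t * d i) • W i := by
          simp only [ite_smul, zero_smul]
          rw [Finset.sum_ite_mem, Finset.univ_inter]
        have h2 : ∑ i ∈ S, c' i • W i = u := by
          rw [← hcu]
          apply Finset.sum_subset (Finset.subset_univ _)
          intro i _ hi
          rw [hcS i hi, zero_smul]
        rw [h1]
        simp only [sub_smul, Finset.sum_sub_distrib, mul_smul, ← Finset.smul_sum, hd, h2,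
          smul_zero, sub_zero]
    have h4 := hmin _ hmem
    have h5 := Finset.card_erase_lt_of_mem hi₀.1
    omega
  obtain ⟨b, -, hSb, hsp, hb⟩ := exists_linearIndepOn_extension hli (Set.subset_univ _)
  have hb' : LinearIndependent ℚ (fun x : b => W x) := hb
  have htop : ⊤ ≤ Submodule.span ℚ (Set.range (fun x : b => W x)) := by
    rw [← hspan, Submodule.span_le, ← Set.image_univ]
    have : Set.range (fun x : b => W x) = W '' b := by
      ext y
      simp
    rw [this]
    exact hsp
  let B := Module.Basis.mk hb' htop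
  have hcard : Fintype.card b = ρ := by
    have h1 := Module.finrank_eq_card_basis B
    rw [Module.finrank_fin_fun] at h1
    exact h1.symm
  let E : b ≃ Fin ρ := Fintype.equivFinOfCardEq hcard
  refine ⟨⟨fun a => (E.symm a : Fin r), hb'.comp _ E.symm.injective⟩, ?_⟩
  intro a
  rw [Frame.co_unique (x := fun a => c' (E.symm a : Fin r))]
  · exact hc' _
  · rw [← hcu]
    apply Fintype.sum_of_injective (fun a => (E.symm a : Fin r))
    · intro a a' h
      exact E.symm.injective (Subtype.ext h)
    · intro i hi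
      rw [hcS i, zero_smul]
      intro hiS
      apply hi
      exact ⟨E ⟨i, hSb hiS⟩, by simp⟩
    · intro a
      rfl

/-- A generic point near `κ` in the cone of all `W i`. -/
theorem exists_generic (κ μ : Fin ρ → ℚ) (c : Fin r → ℚ) (hc : ∀ i, 0 ≤ c i)
    (hκ : κ = ∑ i, c i • W i) :
    ∃ c' : Fin r → ℚ, (∀ i, 0 ≤ c' i) ∧
      (∀ F : Frame W, F.Feas (∑ i, c' i • W i) → F.Feas κ) ∧
      ∀ (F : Frame W) (i l : Fin ρ), i ≠ l → 0 < F.co i μ →
        F.co i μ * F.co l (∑ i, c' i • W i) ≠ F.co l μ * F.co i (∑ i, c' i • W i) := by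
  classical
  -- the family of points
  let u : ℚ → (Fin ρ → ℚ) := fun ε => ∑ j, (c j + ε ^ ((j : ℕ) + 1)) • W j
  -- values of linear forms
  have hval : ∀ φ : (Fin ρ → ℚ) →ₗ[ℚ] ℚ, ∃ p : Polynomial ℚ, (∀ ε, φ (u ε) = p.eval ε) ∧
      p.eval 0 = φ κ ∧ ∀ j : Fin r, p.coeff ((j : ℕ) + 1) = φ (W j) := by
    intro φ
    refine ⟨Polynomial.C (φ κ) + ∑ j : Fin r, Polynomial.C (φ (W j)) *
      Polynomial.X ^ ((j : ℕ) + 1), ?_, ?_, ?_⟩
    · intro ε
      simp only [u, map_sum, map_smul, smul_eq_mul, Polynomial.eval_add, Polynomial.eval_C,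
        Polynomial.eval_finsetSum, Polynomial.eval_mul, Polynomial.eval_pow,
        Polynomial.eval_X, hκ, ← Finset.sum_add_distrib]
      exact Finset.sum_congr rfl fun j _ => by ring
    · simp [Polynomial.eval_finsetSum]
    · intro j
      rw [Polynomial.coeff_add, Polynomial.coeff_C, if_neg (by omega), zero_add,
        Polynomial.finsetSum_coeff]
      simp only [Polynomial.coeff_C_mul, Polynomial.coeff_X_pow]
      rw [Finset.sum_eq_single j]
      · simp
      · intro i _ hij
        rw [if_neg, mul_zero]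
        intro h
        apply hij
        exact Fin.ext (by omega)
      · intro h
        exact absurd (Finset.mem_univ j) h
  have h1 : ∀ᶠ ε in 𝓝[>] (0 : ℚ), ∀ F : Frame W, ∀ i : Fin ρ, F.co i κ < 0 →
      F.co i (u ε) < 0 := by
    rw [Filter.eventually_all]
    intro F
    rw [Filter.eventually_all]
    intro i
    obtain ⟨p, hp, hp0, -⟩ := hval (F.co i)
    by_cases h : F.co i κ < 0
    · have h2 : Filter.Tendsto (fun ε : ℚ => p.eval ε) (𝓝[>] (0 : ℚ)) (𝓝 (p.eval 0)) :=
        (p.continuous.tendsto 0).mono_left nhdsWithin_le_nhds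
      rw [hp0] at h2
      filter_upwards [h2.eventually_lt_const h] with ε hε _
      rw [hp]
      exact hε
    · exact Filter.Eventually.of_forall fun ε h' => absurd h' h
  have h2 : ∀ᶠ ε in 𝓝[>] (0 : ℚ), ∀ F : Frame W, ∀ i l : Fin ρ, i ≠ l → 0 < F.co i μ →
      F.co i μ * F.co l (u ε) ≠ F.co l μ * F.co i (u ε) := by
    rw [Filter.eventually_all]
    intro F
    rw [Filter.eventually_all]
    intro i
    rw [Filter.eventually_all]
    intro l
    by_cases hil : i ≠ l ∧ 0 < F.co i μ
    · obtain ⟨p, hp, -, hpc⟩ := hval (F.co i μ • F.co l - F.co l μ • F.co i)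
      have hp0 : p ≠ 0 := by
        intro h0
        have h3 := hpc (F.e l)
        rw [h0, Polynomial.coeff_zero] at h3
        simp only [LinearMap.sub_apply, LinearMap.smul_apply, Frame.co_e, smul_eq_mul,
          if_true, mul_one, if_neg (Ne.symm hil.1), mul_zero, sub_zero] at h3
        exact hil.2.ne h3
      have h4 : ∀ᶠ ε in 𝓝[>] (0 : ℚ), ε ∉ (p.roots.toFinset : Set ℚ) := by
        have h5 : 𝓝[>] (0 : ℚ) ≤ Filter.cofinite :=
          (nhdsWithin_mono _ (fun x hx => ne_of_gt hx)).trans (nhdsNE_le_cofinite 0)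
        exact h5 (p.roots.toFinset.finite_toSet.compl_mem_cofinite)
      filter_upwards [h4] with ε hε _ _ heq
      apply hε
      rw [Finset.mem_coe, Multiset.mem_toFinset, Polynomial.mem_roots hp0]
      show p.eval ε = 0
      rw [← hp]
      simp only [LinearMap.sub_apply, LinearMap.smul_apply, smul_eq_mul]
      rw [heq, sub_self]
    · refine Filter.Eventually.of_forall fun ε h3 h4 => absurd ⟨h3, h4⟩ hil
  obtain ⟨ε, ⟨he1, he2⟩, hε⟩ := ((h1.and h2).and self_mem_nhdsWithin).exists
  have hε : (0 : ℚ) < ε := hε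
  refine ⟨fun j => c j + ε ^ ((j : ℕ) + 1), fun i => ?_, fun F hF i => ?_, he2⟩
  · have := hc i
    positivity
  · by_contra h
    have h3 := he1 F i (not_le.mp h)
    exact absurd (hF i) (not_le.mpr h3)

end Pool.Agent.FAC
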