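import Pool.Agent.FAI.Defs

/-!
# Smooth Fano varieties with a hypersurface Cox ring, and the alpha invariant

`R = ℂ[T_1, …, T_r] / (g)` is graded by `K = ℤ ^ ρ`, `deg T_i = w i`, and `g` is homogeneous of
degree `μ`. The class `κ = w_1 + ⋯ + w_r - μ` is the anticanonical class, `U` is the set of
points of `V(g)` which are semistable for `κ`, and `X = U / H` for the torus `H = Hom(K, ℂˣ)`.
-/

open scoped ENNReal NNReal
open MvPolynomial

namespace Pool.Agent.FAC

variable {ρ r : ℕ}

/-- The anticanonical class `κ = w_1 + ⋯ + w_r - μ` (adjunction). -/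
def anticanonical (w : Fin r → (Fin ρ → ℤ)) (μ : Fin ρ → ℤ) : Fin ρ → ℤ := ∑ i, w i - μ

/-- The point `z ∈ ℂ ^ r` is semistable for the class `κ`: some monomial of degree `m κ`,
`m ≥ 1`, does not vanish at `z`. -/
def Semistable (w : Fin r → (Fin ρ → ℤ)) (κ : Fin ρ → ℤ) (z : Fin r → ℂ) : Prop :=
  ∃ m : ℕ, 0 < m ∧ ∃ n : Fin r →₀ ℕ, Finsupp.weight w n = m • κ ∧ ∀ i, n i ≠ 0 → z i ≠ 0

/-- The ring `R = ℂ[T_1, …, T_r] / (g)`. -/
abbrev CoxRing (g : MvPolynomial (Fin r) ℂ) : Type :=
  MvPolynomial (Fin r) ℂ ⧸ Ideal.span {g}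

/-- The elements of `R` of degree `m κ` (the sections of `-m K_X`). -/
noncomputable def sections (w : Fin r → (Fin ρ → ℤ)) (κ : Fin ρ → ℤ)
    (g : MvPolynomial (Fin r) ℂ) (m : ℕ) : Set (CoxRing g) :=
  {f | ∃ p : MvPolynomial (Fin r) ℂ, IsWeightedHomogeneous w p (m • κ) ∧
    f = Ideal.Quotient.mk (Ideal.span {g}) p}

/-- The irrelevant ideal, generated by the elements of degree `m κ`, `m ≥ 1`. It defines the
complement of the semistable locus `U` in `Spec R`. -/
noncomputable def irrelevant (w : Fin r → (Fin ρ → ℤ)) (κ : Fin ρ → ℤ)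
    (g : MvPolynomial (Fin r) ℂ) : Ideal (CoxRing g) :=
  Ideal.span {f | ∃ m, 0 < m ∧ f ∈ sections w κ g m}

/-- The data `w, μ, g` of a smooth Fano variety `X = U / H` with hypersurface Cox ring
`R = ℂ[T_1, …, T_r] / (g)`. -/
structure IsFanoHypersurface (w : Fin r → (Fin ρ → ℤ)) (μ : Fin ρ → ℤ)
    (g : MvPolynomial (Fin r) ℂ) : Prop where
  /-- The degrees of the variables are in an open half-space (`X` is complete). -/
  pointed : ∃ h : (Fin ρ → ℤ) →+ ℤ, ∀ i, 0 < h (w i)
  /-- `g` is homogeneous of degree `μ`. -/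
  homogeneous : IsWeightedHomogeneous w g μ
  ne_zero : g ≠ 0
  /-- `R` is a domain. -/
  prime : (Ideal.span {g}).IsPrime
  /-- `R` is normal. -/
  normal : IsIntegrallyClosed (CoxRing g)
  /-- The variables are not zero in `R`. -/
  var_ne : ∀ i, X i ∉ Ideal.span {g}
  /-- `U` is not empty. -/
  nonempty : ∃ z, eval z g = 0 ∧ Semistable w (anticanonical w μ) z
  /-- `U` is smooth. -/
  smooth : ∀ z, eval z g = 0 → Semistable w (anticanonical w μ) z →
    ∃ i, eval z (pderiv i g) ≠ 0
  /-- `H` acts freely on `U`: for `z` in `U` the degrees of the variables which do not vanish at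
  `z` generate `K = ℤ ^ ρ`. So `U → X` is a torsor and `X` is smooth. -/
  free : ∀ z, eval z g = 0 → Semistable w (anticanonical w μ) z →
    Submodule.span ℤ (w '' {i | z i ≠ 0}) = ⊤
  /-- The complement of `U` in `Spec R` has codimension at least two. -/
  small : ∀ P : Ideal (CoxRing g), P.IsPrime → P.height ≤ 1 →
    ¬ irrelevant w (anticanonical w μ) g ≤ P

variable {R : Type*} [CommRing R] [IsDomain R]

/-- For `f ∈ R` homogeneous and `m ≥ 1` let `D = (1/m) div f` (on `X`, or pulled back to the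
open subset `U` of `Spec R` defined by the ideal `J`). `(X, t D)` is log canonical:
`t ord_V(D) ≤ A(V)` for every prime divisor `V` over `U`, that is, for every discrete valuation
ring `V` with `R ≤ V ≤ Frac R`, essentially of finite type over `R`, whose centre on `Spec R` is
in `U`. The log discrepancy `A(V)` is `FAI.logDisc V`, one plus the length of the module of
differentials of `V` over `R`. -/
def IsLC (J : Ideal R) (m : ℕ) (f : R) (t : ℝ≥0) : Prop :=
  ∀ (V : Subalgebra R (FractionRing R)) [IsDiscreteValuationRing V] [Algebra.EssFiniteType R V],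
    ¬ J ≤ (IsLocalRing.maximalIdeal V).comap (algebraMap R V) →
      (t : ℝ≥0∞) * (IsDiscreteValuationRing.addVal V (algebraMap R V f) : ℝ≥0∞) ≤
        m * (FAI.logDisc V : ℝ≥0∞)

/-- The log canonical threshold of `D = (1/m) div f`. -/
noncomputable def lct (J : Ideal R) (m : ℕ) (f : R) : ℝ≥0∞ :=
  ⨆ (t : ℝ≥0) (_ : IsLC J m f t), (t : ℝ≥0∞)

/-- The alpha invariant of `X`: the infimum of the log canonical thresholds of the effective
`ℚ`-divisors `D = (1/m) div f`, `m ≥ 1`, `f ≠ 0` a section of `m κ = -m K_X`. -/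
noncomputable def alpha (w : Fin r → (Fin ρ → ℤ)) (κ : Fin ρ → ℤ)
    (g : MvPolynomial (Fin r) ℂ) [(Ideal.span {g}).IsPrime] : ℝ≥0∞ :=
  ⨅ (m : ℕ) (_ : 0 < m) (f : CoxRing g) (_ : f ∈ sections w κ g m) (_ : f ≠ 0),
    lct (irrelevant w κ g) m f

end Pool.Agent.FAC
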