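import Mathlib

/-!
# The arithmetic lemma: pairwise generating elements of a group of rank one
-/

namespace Pool.Agent.FAC

theorem sum_le_prod {ι : Type*} [DecidableEq ι] (s : Finset ι) (a : ι → ℕ)
    (h : ∀ k ∈ s, 2 ≤ a k) : ∑ k ∈ s, a k ≤ ∏ k ∈ s, a k := by
  induction s using Finset.induction_on with
  | empty => simp
  | insert i s hi ih =>
    rw [Finset.sum_insert hi, Finset.prod_insert hi]
    have h1 := h i (Finset.mem_insert_self i s)
    have h2 := ih fun k hk => h k (Finset.mem_insert_of_mem hk)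
    rcases s.eq_empty_or_nonempty with rfl | ⟨j, hj⟩
    · simp
    · have h3 : 2 ≤ ∏ k ∈ s, a k := by
        have h4 : a j ≤ ∏ k ∈ s, a k := by
          apply Nat.le_of_dvd
          · exact Finset.prod_pos fun k hk => by
              have := h k (Finset.mem_insert_of_mem hk)
              omega
          · exact Finset.dvd_prod_of_mem _ hj
        exact (h j (Finset.mem_insert_of_mem hj)).trans h4
      nlinarith

/-- `G` is generated by any two of the elements `x k`, `k ∈ P`; all `x k` have positive degree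
and a common multiple `y = M k • x k`, of degree less than the sum of the degrees of the `x k`.
Then some `x k` generates `G`. -/
theorem exists_generator {G ι : Type*} [AddCommGroup G] [DecidableEq ι] (P : Finset ι)
    (hP : P.Nonempty) (x : ι → G) (l : G →+ ℤ) (hpos : ∀ k ∈ P, 0 < l (x k))
    (hpair : ∀ a ∈ P, ∀ b ∈ P, a ≠ b → ∀ z : G, ∃ p q : ℤ, z = p • x a + q • x b)
    (y : G) (M : ι → ℕ) (hM : ∀ k ∈ P, M k • x k = y) (hy : 0 < l y)
    (hlt : l y < ∑ k ∈ P, l (x k)) : ∃ k ∈ P, ∀ z : G, ∃ p : ℤ, z = p • x k := by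
  by_contra hcon
  push Not at hcon
  -- values
  have hMl : ∀ k ∈ P, (M k : ℤ) * l (x k) = l y := by
    intro k hk
    rw [← hM k hk, map_nsmul, nsmul_eq_mul]
  have hMpos : ∀ k ∈ P, 0 < M k := by
    intro k hk
    rcases Nat.eq_zero_or_pos (M k) with h | h
    · have := hMl k hk
      rw [h, Nat.cast_zero, zero_mul] at this
      omega
    · exact h
  -- at least two elements
  have htwo : ∀ a ∈ P, ∃ b ∈ P, a ≠ b := by
    intro a ha
    by_contra h
    push Not at h
    have hs : P = {a} := by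
      ext c
      rw [Finset.mem_singleton]
      exact ⟨fun hc => (h c hc).symm, fun hc => hc ▸ ha⟩
    rw [hs, Finset.sum_singleton, ← hMl a ha] at hlt
    have h1 := hpos a ha
    have h2 : (1 : ℤ) ≤ M a := by exact_mod_cast hMpos a ha
    nlinarith
  -- the degree generator
  obtain ⟨d, hd⟩ : ∃ d : ℕ, ∀ n : ℤ, (∃ z, l z = n) ↔ (d : ℤ) ∣ n := by
    obtain ⟨d, hd⟩ := Int.subgroup_cyclic (l.range)
    refine ⟨d.natAbs, fun n => ?_⟩
    rw [Int.natAbs_dvd]
    have h1 : n ∈ l.range ↔ ∃ z, l z = n := Iff.rfl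
    rw [← h1, hd, AddSubgroup.mem_closure_singleton]
    constructor
    · rintro ⟨c, rfl⟩
      exact ⟨c, by rw [smul_eq_mul, mul_comm]⟩
    · rintro ⟨c, rfl⟩
      exact ⟨c, by rw [smul_eq_mul, mul_comm]⟩
  obtain ⟨a₀, ha₀⟩ := hP
  have hdpos : 0 < d := by
    rcases Nat.eq_zero_or_pos d with h | h
    · exfalso
      have h1 := (hd (l (x a₀))).mp ⟨_, rfl⟩
      rw [h, Nat.cast_zero, zero_dvd_iff] at h1
      have := hpos a₀ ha₀
      omega
    · exact h
  have hdvd : ∀ z, (d : ℤ) ∣ l z := fun z => (hd _).mp ⟨z, rfl⟩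
  choose L hL using hdvd
  have hdz : (d : ℤ) ≠ 0 := by exact_mod_cast hdpos.ne'
  have hLadd : ∀ z z', L (z + z') = L z + L z' := by
    intro z z'
    apply mul_left_cancel₀ hdz
    rw [← hL, map_add, hL, hL]
    ring
  have hLsmul : ∀ (p : ℤ) z, L (p • z) = p * L z := by
    intro p z
    apply mul_left_cancel₀ hdz
    rw [← hL, map_zsmul, hL, smul_eq_mul]
    ring
  have hLpos : ∀ k ∈ P, 0 < L (x k) := by
    intro k hk
    have h1 := hpos k hk
    rw [hL] at h1
    exact (mul_pos_iff_of_pos_left (by exact_mod_cast hdpos)).mp h1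
  obtain ⟨z₁, hz₁⟩ : ∃ z, L z = 1 := by
    obtain ⟨z, hz⟩ := (hd d).mpr dvd_rfl
    refine ⟨z, ?_⟩
    apply mul_left_cancel₀ hdz
    rw [← hL, hz, mul_one]
  -- natural numbers
  set a : ι → ℕ := fun k => (L (x k)).toNat with ha
  have haL : ∀ k ∈ P, (a k : ℤ) = L (x k) := fun k hk => Int.toNat_of_nonneg (hLpos k hk).le
  have hapos : ∀ k ∈ P, 0 < a k := by
    intro k hk
    have := hLpos k hk
    rw [← haL k hk] at this
    exact_mod_cast this
  have hcop : ∀ i ∈ P, ∀ j ∈ P, i ≠ j → Nat.Coprime (a i) (a j) := by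
    intro i hi j hj hij
    rw [← Nat.isCoprime_iff_coprime]
    obtain ⟨p, q, hpq⟩ := hpair i hi j hj hij z₁
    refine ⟨p, q, ?_⟩
    rw [haL i hi, haL j hj, ← hLsmul, ← hLsmul, ← hLadd, ← hpq, hz₁]
  have hy1 : 0 < L y := by
    rw [hL] at hy
    exact (mul_pos_iff_of_pos_left (by exact_mod_cast hdpos)).mp hy
  set e : ℕ := (L y).toNat with he
  have heL : (e : ℤ) = L y := Int.toNat_of_nonneg hy1.le
  have hMe : ∀ k ∈ P, M k * a k = e := by
    intro k hk
    have h1 : (M k : ℤ) * a k = e := by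
      rw [haL k hk, heL, ← hM k hk, ← natCast_zsmul, hLsmul]
    exact_mod_cast h1
  -- the torsion subgroup
  let F : AddSubgroup G := l.ker
  have hF : ∀ z, z ∈ F ↔ L z = 0 := by
    intro z
    have : z ∈ F ↔ l z = 0 := Iff.rfl
    rw [this, hL]
    constructor
    · intro h
      exact (mul_eq_zero.mp h).resolve_left hdz
    · intro h
      rw [h, mul_zero]
  have heps : ∀ i ∈ P, ∀ j ∈ P, i ≠ j →
      ∃ ε : F, (∀ z : F, ∃ n : ℤ, n • ε = z) ∧ ∃ n : ℕ, n * (a i * a j) = e ∧ n • ε = 0 := by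
    intro i hi j hj hij
    have hm : (a j : ℤ) • x i - (a i : ℤ) • x j ∈ F := by
      rw [hF, sub_eq_add_neg, ← neg_smul, hLadd, hLsmul, hLsmul, ← haL i hi, ← haL j hj]
      ring
    refine ⟨⟨_, hm⟩, ?_, ?_⟩
    · rintro ⟨z, hz⟩
      rw [hF] at hz
      obtain ⟨p, q, rfl⟩ := hpair i hi j hj hij z
      rw [hLadd, hLsmul, hLsmul, ← haL i hi, ← haL j hj] at hz
      have hc := hcop i hi j hj hij
      rw [← Nat.isCoprime_iff_coprime] at hc
      have h1 : (a j : ℤ) ∣ p := by
        apply hc.symm.dvd_of_dvd_mul_right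
        exact ⟨-q, by linarith⟩
      obtain ⟨n, rfl⟩ := h1
      have h2 : q = -(n * a i) := by
        have h3 : (a j : ℤ) ≠ 0 := by exact_mod_cast (hapos j hj).ne'
        apply mul_left_cancel₀ h3
        linarith
      refine ⟨n, Subtype.ext ?_⟩
      change n • ((a j : ℤ) • x i - (a i : ℤ) • x j) = ((a j : ℤ) * n) • x i + q • x j
      rw [h2, smul_sub, smul_smul, smul_smul, neg_smul, mul_comm n (a j : ℤ)]
      abel
    · have hc := hcop i hi j hj hij
      have h1 : a j ∣ M i := by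
        apply hc.symm.dvd_of_dvd_mul_right
        rw [hMe i hi, ← hMe j hj]
        exact dvd_mul_left _ _
      obtain ⟨n, hn⟩ := h1
      have h2 : M j = a i * n := by
        have h3 := hMe j hj
        rw [← hMe i hi, hn] at h3
        have h4 : 0 < a j := hapos j hj
        apply Nat.eq_of_mul_eq_mul_right h4
        rw [h3]
        ring
      refine ⟨n, ?_, Subtype.ext ?_⟩
      · rw [← hMe i hi, hn]
        ring
      · change n • ((a j : ℤ) • x i - (a i : ℤ) • x j) = 0
        have h5 := hM i hi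
        rw [← hM j hj, hn, h2] at h5
        rw [smul_sub, natCast_zsmul, natCast_zsmul, smul_smul, smul_smul, mul_comm n (a j),
          mul_comm n (a i), h5, sub_self]
  obtain ⟨b₀, hb₀, hab₀⟩ := htwo a₀ ha₀
  obtain ⟨ε₀, hε₀, n₀, hn₀, hn₀'⟩ := heps a₀ ha₀ b₀ hb₀ hab₀
  have hepos : 0 < e := by
    rw [← hMe a₀ ha₀]
    exact Nat.mul_pos (hMpos a₀ ha₀) (hapos a₀ ha₀)
  have hn₀pos : 0 < n₀ := by
    rcases Nat.eq_zero_or_pos n₀ with h | h
    · rw [h, zero_mul] at hn₀
      omega
    · exact h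
  have hcard : ∀ ε : F, (∀ z : F, ∃ n : ℤ, n • ε = z) → addOrderOf ε = Nat.card F := by
    intro ε hε
    exact addOrderOf_eq_card_of_forall_mem_zmultiples fun z => by
      obtain ⟨n, hn⟩ := hε z
      exact ⟨n, hn⟩
  set f : ℕ := Nat.card F with hf
  have hfpos : 0 < f := by
    rw [← hcard ε₀ hε₀, addOrderOf_pos_iff]
    exact isOfFinAddOrder_iff_nsmul_eq_zero.mpr ⟨n₀, hn₀pos, hn₀'⟩
  have hFfin : Finite F := (Nat.card_pos_iff.mp (hf ▸ hfpos)).2
  have hfdvd : ∀ i ∈ P, ∀ j ∈ P, i ≠ j → f * (a i * a j) ∣ e := by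
    intro i hi j hj hij
    obtain ⟨ε, hε, n, hn, hn'⟩ := heps i hi j hj hij
    rw [← hn]
    apply Nat.mul_dvd_mul_right
    rw [← hcard ε hε]
    exact addOrderOf_dvd_of_nsmul_eq_zero hn'
  obtain ⟨e', he'⟩ : f ∣ e := (dvd_mul_right _ _).trans (hfdvd a₀ ha₀ b₀ hb₀ hab₀)
  have hae' : ∀ i ∈ P, a i ∣ e' := by
    intro i hi
    obtain ⟨j, hj, hij⟩ := htwo i hi
    have h1 := hfdvd i hi j hj hij
    rw [he'] at h1
    exact (dvd_mul_right _ _).trans (Nat.dvd_of_mul_dvd_mul_left hfpos h1)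
  have he'pos : 0 < e' := by
    rcases Nat.eq_zero_or_pos e' with h | h
    · rw [h, mul_zero] at he'
      omega
    · exact h
  -- generators
  have hgen : ∀ k ∈ P, a k = 1 → f ≠ 1 := by
    intro k hk hak hf1
    obtain ⟨z, hz⟩ := hcon k hk
    apply hz (L z)
    have hsub : Subsingleton F := (Nat.card_eq_one_iff_unique.mp (hf ▸ hf1)).1
    have h1 : z - L z • x k ∈ F := by
      rw [hF, sub_eq_add_neg, ← neg_smul, hLadd, hLsmul, ← haL k hk, hak]
      push_cast
      ring
    have h2 : (⟨_, h1⟩ : F) = 0 := Subsingleton.elim _ _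
    have h3 := congrArg Subtype.val h2
    exact sub_eq_zero.mp h3
  -- the elements of degree one
  set Q := P.filter fun k => a k = 1 with hQ
  set N2 := P.filter fun k => ¬ a k = 1 with hN2
  have hQcard : Q.card ≤ f := by
    rcases Q.eq_empty_or_nonempty with h | ⟨k₀, hk₀⟩
    · rw [h, Finset.card_empty]
      exact Nat.zero_le _
    · have hk₀' := Finset.mem_filter.mp hk₀
      have hm : ∀ k : Q, x k - x k₀ ∈ F := by
        rintro ⟨k, hk⟩
        have hk' := Finset.mem_filter.mp hk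
        rw [hF, sub_eq_add_neg, ← neg_one_zsmul, hLadd, hLsmul, ← haL k hk'.1,
          ← haL k₀ hk₀'.1, hk'.2, hk₀'.2]
        norm_num
      have hinj : Function.Injective (fun k : Q => (⟨x k - x k₀, hm k⟩ : F)) := by
        rintro ⟨k, hk⟩ ⟨k', hk'⟩ hkk
        have h1 : x k - x k₀ = x k' - x k₀ := congrArg Subtype.val hkk
        have h2 : x k = x k' := sub_left_injective h1
        by_contra hne
        have hne' : k ≠ k' := fun h => hne (Subtype.ext h)
        have hkP := (Finset.mem_filter.mp hk).1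
        obtain ⟨z, hz⟩ := hcon k hkP
        obtain ⟨p, q, hpq⟩ := hpair k hkP k' (Finset.mem_filter.mp hk').1 hne' z
        apply hz (p + q)
        rw [hpq, ← h2, add_smul]
      have := Nat.card_le_card_of_injective _ hinj
      rwa [Nat.card_eq_fintype_card, Fintype.card_coe] at this
  have hsum : ∑ k ∈ P, a k = Q.card + ∑ k ∈ N2, a k := by
    rw [← Finset.sum_filter_add_sum_filter_not P (fun k => a k = 1)]
    congr 1
    rw [Finset.card_eq_sum_ones]
    exact Finset.sum_congr rfl fun k hk => (Finset.mem_filter.mp hk).2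
  have hN2two : ∀ k ∈ N2, 2 ≤ a k := by
    intro k hk
    have hk' := Finset.mem_filter.mp hk
    have := hapos k hk'.1
    omega
  have hprod : ∏ k ∈ N2, a k ∣ e' := by
    rw [← Int.natCast_dvd_natCast, Nat.cast_prod]
    apply Finset.prod_dvd_of_coprime
    · intro i hi j hj hij
      exact Nat.isCoprime_iff_coprime.mpr
        (hcop i (Finset.mem_filter.mp hi).1 j (Finset.mem_filter.mp hj).1 hij)
    · intro i hi
      exact Int.natCast_dvd_natCast.mpr (hae' i (Finset.mem_filter.mp hi).1)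
  have hfinal : ∑ k ∈ P, a k ≤ e := by
    have h1 := sum_le_prod N2 a hN2two
    have h2 : ∏ k ∈ N2, a k ≤ e' := Nat.le_of_dvd he'pos hprod
    rcases N2.eq_empty_or_nonempty with h | ⟨j, hj⟩
    · rw [hsum, h, Finset.sum_empty, add_zero, he']
      nlinarith
    · have h3 : 2 ≤ ∏ k ∈ N2, a k := by
        have h4 : a j ≤ ∏ k ∈ N2, a k := by
          apply Nat.le_of_dvd
          · exact Finset.prod_pos fun k hk => by
              have := hN2two k hk
              omega
          · exact Finset.dvd_prod_of_mem _ hj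
        exact (hN2two j hj).trans h4
      rcases Nat.lt_or_ge f 2 with hf2 | hf2
      · have hf1 : f = 1 := by omega
        have hQ0 : Q.card = 0 := by
          rw [Finset.card_eq_zero, Finset.filter_eq_empty_iff]
          intro k hk hak
          exact hgen k hk hak hf1
        rw [hsum, hQ0, he', hf1]
        omega
      · rw [hsum, he']
        have h5 : f * (∏ k ∈ N2, a k) ≤ f * e' := Nat.mul_le_mul_left _ h2
        nlinarith
  have h1 : ∑ k ∈ P, l (x k) ≤ l y := by
    have h2 : ∑ k ∈ P, l (x k) = d * ((∑ k ∈ P, a k : ℕ) : ℤ) := by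
      push_cast
      rw [Finset.mul_sum]
      exact Finset.sum_congr rfl fun k hk => by rw [haL k hk, hL]
    rw [h2, hL y, ← heL]
    have h3 : ((∑ k ∈ P, a k : ℕ) : ℤ) ≤ e := by exact_mod_cast hfinal
    exact mul_le_mul_of_nonneg_left h3 (by positivity)
  omega

end Pool.Agent.FAC
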