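import Mathlib

/-!
# Zeros of a polynomial with prescribed vanishing coordinates
-/

open MvPolynomial

namespace Pool.Agent.FAC

variable {r : ℕ}

theorem eval_eq_zero (g : MvPolynomial (Fin r) ℂ) (z : Fin r → ℂ)
    (h : ∀ n ∈ g.support, ∃ i, n i ≠ 0 ∧ z i = 0) : eval z g = 0 := by
  rw [eval_eq']
  refine Finset.sum_eq_zero fun n hn => ?_
  obtain ⟨i, hi, hz⟩ := h n hn
  rw [Finset.prod_eq_zero (Finset.mem_univ i), mul_zero]
  rw [hz, zero_pow hi]

theorem exists_zero (g : MvPolynomial (Fin r) ℂ) (S : Finset (Fin r)) (a : Fin r)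
    (ha : a ∉ S) (n₁ n₂ : Fin r →₀ ℕ) (h₁ : n₁ ∈ g.support) (h₂ : n₂ ∈ g.support)
    (hS₁ : ∀ i, n₁ i ≠ 0 → i ∈ S) (hS₂ : ∀ i, n₂ i ≠ 0 → i ∈ insert a S) (ha₂ : n₂ a ≠ 0)
    (hinj : ∀ n ∈ g.support, ∀ n' ∈ g.support, (∀ i, n i ≠ 0 → i ∈ insert a S) →
      (∀ i, n' i ≠ 0 → i ∈ insert a S) → n a = n' a → n = n') :
    ∃ z : Fin r → ℂ, eval z g = 0 ∧ ∀ i, z i ≠ 0 ↔ i ∈ insert a S := by
  classical
  let T := g.support.filter fun n => ∀ i, n i ≠ 0 → i ∈ insert a S
  let p : Polynomial ℂ := ∑ n ∈ T, Polynomial.monomial (n a) (coeff n g)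
  have hT : ∀ n, n ∈ T ↔ n ∈ g.support ∧ ∀ i, n i ≠ 0 → i ∈ insert a S := fun n =>
    Finset.mem_filter
  have hco : ∀ n ∈ T, p.coeff (n a) = coeff n g := by
    intro n hn
    rw [Polynomial.finsetSum_coeff, Finset.sum_eq_single n]
    · rw [Polynomial.coeff_monomial, if_pos rfl]
    · intro n' hn' hne
      rw [Polynomial.coeff_monomial, if_neg]
      intro h
      apply hne
      rw [hT] at hn hn'
      exact hinj n' hn'.1 n hn.1 hn'.2 hn.2 h
    · intro h
      exact absurd hn h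
  have hn₁T : n₁ ∈ T := (hT _).mpr ⟨h₁, fun i hi => Finset.mem_insert_of_mem (hS₁ i hi)⟩
  have hn₂T : n₂ ∈ T := (hT _).mpr ⟨h₂, hS₂⟩
  have h1a : n₁ a = 0 := by
    by_contra h
    exact ha (hS₁ a h)
  have hc0 : p.coeff 0 ≠ 0 := by
    rw [← h1a, hco n₁ hn₁T]
    exact mem_support_iff.mp h₁
  have hc2 : p.coeff (n₂ a) ≠ 0 := by
    rw [hco n₂ hn₂T]
    exact mem_support_iff.mp h₂
  have hdeg : p.degree ≠ 0 := by
    intro h
    have h3 := Polynomial.le_degree_of_ne_zero hc2
    rw [h] at h3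
    have h4 : n₂ a ≤ 0 := by exact_mod_cast h3
    omega
  obtain ⟨x, hx⟩ := IsAlgClosed.exists_root p hdeg
  have hx0 : x ≠ 0 := by
    rintro rfl
    apply hc0
    rw [Polynomial.coeff_zero_eq_eval_zero]
    exact hx
  let z : Fin r → ℂ := fun i => if i = a then x else if i ∈ S then 1 else 0
  have hz : ∀ i, z i ≠ 0 ↔ i ∈ insert a S := by
    intro i
    rw [Finset.mem_insert]
    show (if i = a then x else if i ∈ S then 1 else 0) ≠ 0 ↔ _
    split_ifs with h h'
    · simp [h, hx0]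
    · simp [h']
    · simp [h, h']
  refine ⟨z, ?_, hz⟩
  have hpe : eval z g = p.eval x := by
    rw [eval_eq', Polynomial.eval_finsetSum]
    rw [← Finset.sum_filter_add_sum_filter_not g.support
      (fun n => ∀ i, n i ≠ 0 → i ∈ insert a S)]
    have e1 : ∑ n ∈ g.support.filter (fun n => ¬ ∀ i, n i ≠ 0 → i ∈ insert a S),
        coeff n g * ∏ i, z i ^ n i = 0 := by
      refine Finset.sum_eq_zero fun n hn => ?_
      rw [Finset.mem_filter] at hn
      obtain ⟨i, hi⟩ := not_forall.mp hn.2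
      rw [Classical.not_imp] at hi
      rw [Finset.prod_eq_zero (Finset.mem_univ i), mul_zero]
      have h5 : z i = 0 := by
        by_contra h6
        exact hi.2 ((hz i).mp h6)
      rw [h5, zero_pow hi.1]
    rw [e1, add_zero]
    refine Finset.sum_congr rfl fun n hn => ?_
    rw [Polynomial.eval_monomial]
    congr 1
    rw [Finset.prod_eq_single a]
    · show (if a = a then x else _) ^ n a = x ^ n a
      rw [if_pos rfl]
    · intro i _ hia
      by_cases hni : n i = 0
      · rw [hni, pow_zero]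
      · have h6 := ((hT n).mp hn).2 i hni
        rw [Finset.mem_insert] at h6
        have h7 : z i = 1 := by
          show (if i = a then x else if i ∈ S then 1 else 0) = 1
          rw [if_neg hia, if_pos (h6.resolve_left hia)]
        rw [h7, one_pow]
    · intro h
      exact absurd (Finset.mem_univ a) h
  rw [hpe]
  exact hx

end Pool.Agent.FAC
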