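import Pool.Agent.FAC.Cara
import Pool.Agent.FAC.Group
import Pool.Agent.FAC.Poly
import Pool.Agent.FAC.Defs

/-!
# The anticanonical class is a sum of degrees of variables
-/

open MvPolynomial

namespace Pool.Agent.FAC

variable {ρ r : ℕ}

/-- From integral to rational vectors. -/
def toQ : (Fin ρ → ℤ) →+ (Fin ρ → ℚ) where
  toFun v a := (v a : ℚ)
  map_zero' := by ext; simp
  map_add' u v := by ext; simp

theorem toQ_apply (v : Fin ρ → ℤ) (a : Fin ρ) : toQ v a = (v a : ℚ) := rfl

theorem toQ_injective : Function.Injective (toQ : (Fin ρ → ℤ) →+ (Fin ρ → ℚ)) := by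
  intro u v h
  ext a
  have := congrFun h a
  rw [toQ_apply, toQ_apply] at this
  exact_mod_cast this

theorem toQ_nsmul (m : ℕ) (v : Fin ρ → ℤ) : toQ (m • v) = (m : ℚ) • toQ v := by
  ext a
  rw [Pi.smul_apply, toQ_apply, Pi.smul_apply, toQ_apply]
  simp

theorem toQ_zsmul (m : ℤ) (v : Fin ρ → ℤ) : toQ (m • v) = (m : ℚ) • toQ v := by
  ext a
  rw [Pi.smul_apply, toQ_apply, Pi.smul_apply, toQ_apply]
  simp

/-- The rational weights. -/
def rat (w : Fin r → (Fin ρ → ℤ)) : Fin r → (Fin ρ → ℚ) := fun i => toQ (w i)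

theorem weight_eq (w : Fin r → (Fin ρ → ℤ)) (n : Fin r →₀ ℕ) :
    Finsupp.weight w n = ∑ i, n i • w i := by
  rw [Finsupp.weight_apply]
  exact Finsupp.sum_fintype _ _ (fun i => zero_smul _ _)

theorem toQ_weight (w : Fin r → (Fin ρ → ℤ)) (n : Fin r →₀ ℕ) :
    toQ (Finsupp.weight w n) = ∑ i, (n i : ℚ) • rat w i := by
  rw [weight_eq, map_sum]
  exact Finset.sum_congr rfl fun i _ => toQ_nsmul _ _

/-- Coordinates of a combination of the vectors of a frame. -/
theorem co_support {W : Fin r → (Fin ρ → ℚ)} (F : Frame W) (f : Fin r → ℚ)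
    (hf : ∀ i, f i ≠ 0 → i ∈ Set.range F.e) (a : Fin ρ) :
    F.co a (∑ i, f i • W i) = f (F.e a) := by
  apply Frame.co_unique (x := fun a => f (F.e a))
  apply Fintype.sum_of_injective F.e F.e_injective
  · intro i hi
    have : f i = 0 := by
      by_contra h
      exact hi (hf i h)
    rw [this, zero_smul]
  · intro a
    rfl

theorem exists_denominator (x : Fin ρ → ℚ) :
    ∃ N : ℕ, 0 < N ∧ ∃ y : Fin ρ → ℤ, ∀ a, (y a : ℚ) = N * x a := by
  refine ⟨∏ a, (x a).den, Finset.prod_pos fun a _ => (x a).den_pos, ?_⟩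
  have h : ∀ a, ∃ y : ℤ, (y : ℚ) = ((∏ a, (x a).den : ℕ) : ℚ) * x a := by
    intro a
    obtain ⟨k, hk⟩ := Finset.dvd_prod_of_mem (fun a => (x a).den) (Finset.mem_univ a)
    refine ⟨(x a).num * k, ?_⟩
    rw [hk]
    push_cast
    have h1 : ((x a).den : ℚ) * x a = (x a).num := by
      rw [mul_comm]
      exact Rat.mul_den_eq_num _
    rw [← h1]
    ring
  choose y hy using h
  exact ⟨y, hy⟩

variable {w : Fin r → (Fin ρ → ℤ)} {κ : Fin ρ → ℤ}

/-- A point at which the variables of a frame do not vanish is semistable for the classes in the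
cone of the frame. -/
theorem semistable_of_feas (F : Frame (rat w)) (hF : F.Feas (toQ κ)) (z : Fin r → ℂ)
    (hz : ∀ a, F.co a (toQ κ) ≠ 0 → z (F.e a) ≠ 0) : Semistable w κ z := by
  classical
  obtain ⟨N, hN, y, hy⟩ := exists_denominator (fun a => F.co a (toQ κ))
  have hy0 : ∀ a, 0 ≤ y a := by
    intro a
    have h1 : (0 : ℚ) ≤ y a := by
      rw [hy]
      exact mul_nonneg (by positivity) (hF a)
    exact_mod_cast h1
  let n : Fin r →₀ ℕ := ∑ a, Finsupp.single (F.e a) (y a).toNat
  have hw : Finsupp.weight w n = ∑ a, (y a) • w (F.e a) := by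
    simp only [n, map_sum, Finsupp.weight_single]
    refine Finset.sum_congr rfl fun a _ => ?_
    rw [← natCast_zsmul, Int.toNat_of_nonneg (hy0 a)]
  refine ⟨N, hN, n, ?_, ?_⟩
  · rw [hw]
    apply toQ_injective
    rw [map_sum, toQ_nsmul]
    conv_rhs => rw [← F.sum_co (toQ κ), Finset.smul_sum]
    refine Finset.sum_congr rfl fun a _ => ?_
    rw [toQ_zsmul, hy, smul_smul]
    rfl
  · intro i hi
    have h1 : ∃ a, Finsupp.single (F.e a) (y a).toNat i ≠ 0 := by
      by_contra hcon
      push Not at hcon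
      apply hi
      simp only [n, Finsupp.finsetSum_apply]
      exact Finset.sum_eq_zero fun a _ => hcon a
    obtain ⟨a, ha⟩ := h1
    rw [Finsupp.single_apply] at ha
    split_ifs at ha with h2
    · rw [← h2]
      apply hz
      intro h3
      have h4 : (y a : ℚ) = 0 := by rw [hy, h3, mul_zero]
      have h5 : y a = 0 := by exact_mod_cast h4
      apply ha
      rw [h5]
      rfl
    · exact absurd rfl ha

/-- If the degrees of the variables of a frame generate the group, then a class in the cone of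
the frame is a sum of these degrees. -/
theorem exists_weight (F : Frame (rat w)) (hF : F.Feas (toQ κ))
    (hgen : Submodule.span ℤ (Set.range (fun a => w (F.e a))) = ⊤) :
    ∃ n : Fin r →₀ ℕ, Finsupp.weight w n = κ := by
  classical
  have h1 : κ ∈ Submodule.span ℤ (Set.range (fun a => w (F.e a))) := by
    rw [hgen]
    trivial
  rw [Submodule.mem_span_range_iff_exists_fun] at h1
  obtain ⟨c, hc⟩ := h1
  have h2 : ∀ a, F.co a (toQ κ) = c a := by
    intro a
    apply Frame.co_unique (x := fun a => (c a : ℚ))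
    rw [← hc, map_sum]
    exact Finset.sum_congr rfl fun a _ => by rw [toQ_zsmul]; rfl
  have h3 : ∀ a, 0 ≤ c a := by
    intro a
    have h4 := hF a
    rw [h2] at h4
    exact_mod_cast h4
  refine ⟨∑ a, Finsupp.single (F.e a) (c a).toNat, ?_⟩
  rw [map_sum, ← hc]
  refine Finset.sum_congr rfl fun a _ => ?_
  rw [Finsupp.weight_single, ← natCast_zsmul, Int.toNat_of_nonneg (h3 a)]

theorem span_rat {S : Set (Fin r)} (h : Submodule.span ℤ (w '' S) = ⊤) :
    Submodule.span ℚ (Set.range (rat w)) = ⊤ := by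
  classical
  have h1 : ∀ v : Fin ρ → ℤ, toQ v ∈ Submodule.span ℚ (Set.range (rat w)) := by
    intro v
    have hv : v ∈ Submodule.span ℤ (w '' S) := by rw [h]; trivial
    induction hv using Submodule.span_induction with
    | mem x hx =>
      obtain ⟨i, -, rfl⟩ := hx
      exact Submodule.subset_span ⟨i, rfl⟩
    | zero => rw [map_zero]; exact Submodule.zero_mem _
    | add x y _ _ hx hy => rw [map_add]; exact Submodule.add_mem _ hx hy
    | smul c x _ hx => rw [toQ_zsmul]; exact Submodule.smul_mem _ _ hx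
  rw [eq_top_iff]
  intro x _
  have h2 : x = ∑ a, x a • toQ (Pi.single a 1) := by
    ext b
    rw [Finset.sum_apply]
    simp only [Pi.smul_apply, toQ_apply, smul_eq_mul]
    rw [Finset.sum_eq_single b]
    · simp
    · intro a _ hab
      rw [Pi.single_eq_of_ne (Ne.symm hab)]
      simp
    · intro hb
      exact absurd (Finset.mem_univ b) hb
  rw [h2]
  exact Submodule.sum_mem _ fun a _ => Submodule.smul_mem _ _ (h1 _)

variable {μ : Fin ρ → ℤ} {g : MvPolynomial (Fin r) ℂ}

theorem co_degree (hhom : IsWeightedHomogeneous w g μ) (F : Frame (rat w)) {n : Fin r →₀ ℕ}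
    (hn : n ∈ g.support) (hs : ∀ i, n i ≠ 0 → i ∈ Set.range F.e) (a : Fin ρ) :
    F.co a (toQ μ) = n (F.e a) := by
  have h1 : Finsupp.weight w n = μ := hhom (mem_support_iff.mp hn)
  rw [← h1, toQ_weight]
  apply co_support F (fun i => (n i : ℚ))
  intro i hi
  apply hs i
  intro h
  apply hi
  simp [h]

/-- The value of the linear form of a wall at the class `κ` is positive. -/
theorem wall_pos (hhom : IsWeightedHomogeneous w g μ)
    (hfree : ∀ z, eval z g = 0 → Semistable w κ z →
      Submodule.span ℤ (w '' {i | z i ≠ 0}) = ⊤)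
    (F : Frame (rat w)) (hF : F.Feas (toQ κ)) (i : Fin ρ) (hi : 0 < F.co i (toQ μ)) :
    0 < F.co i (toQ κ) := by
  classical
  refine lt_of_le_of_ne (hF i) fun h0 => ?_
  let z : Fin r → ℂ := fun j => if ∃ a, a ≠ i ∧ F.e a = j then 1 else 0
  have hz : ∀ j, z j ≠ 0 ↔ ∃ a, a ≠ i ∧ F.e a = j := by
    intro j
    show (if ∃ a, a ≠ i ∧ F.e a = j then (1 : ℂ) else 0) ≠ 0 ↔ _
    split_ifs with h
    · simp [h]
    · simp only [ne_eq, not_true_eq_false, false_iff]
      exact h
  have hL : ∀ j, z j ≠ 0 → F.co i (rat w j) = 0 := by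
    intro j hj
    obtain ⟨a, ha, rfl⟩ := (hz j).mp hj
    rw [F.co_e, if_neg ha]
  have h1 : eval z g = 0 := by
    apply eval_eq_zero
    intro n hn
    by_contra hcon
    push Not at hcon
    have h2 : Finsupp.weight w n = μ := hhom (mem_support_iff.mp hn)
    have h3 : F.co i (toQ μ) = 0 := by
      rw [← h2, toQ_weight, map_sum]
      refine Finset.sum_eq_zero fun j _ => ?_
      rw [map_smul]
      by_cases hj : n j = 0
      · rw [hj]
        simp
      · rw [hL j (hcon j hj), smul_zero]
    rw [h3] at hi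
    exact lt_irrefl _ hi
  have h2 : Semistable w κ z := by
    apply semistable_of_feas F hF
    intro a ha
    rw [hz]
    refine ⟨a, ?_, rfl⟩
    rintro rfl
    exact ha h0.symm
  have h3 := hfree z h1 h2
  have h4 : ∀ v ∈ Submodule.span ℤ (w '' {i | z i ≠ 0}), F.co i (toQ v) = 0 := by
    intro v hv
    induction hv using Submodule.span_induction with
    | mem x hx =>
      obtain ⟨j, hj, rfl⟩ := hx
      exact hL j hj
    | zero => rw [map_zero, map_zero]
    | add x y _ _ hx hy => rw [map_add, map_add, hx, hy, add_zero]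
    | smul c x _ hx => rw [toQ_zsmul, map_smul, hx, smul_zero]
  have h5 := h4 (w (F.e i)) (by rw [h3]; trivial)
  have h6 := F.co_e i i
  rw [if_pos rfl] at h6
  have h7 : rat w (F.e i) = toQ (w (F.e i)) := rfl
  rw [h7, h5] at h6
  exact zero_ne_one h6

/-- An integral multiple of a linear form of a frame. -/
theorem exists_integral (F : Frame (rat w)) (i : Fin ρ) :
    ∃ (N : ℕ) (l : (Fin ρ → ℤ) →ₗ[ℤ] ℤ), 0 < N ∧ ∀ v, (l v : ℚ) = N * F.co i (toQ v) := by
  classical
  obtain ⟨N, hN, y, hy⟩ := exists_denominator (fun a => F.co i (toQ (Pi.single a 1)))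
  refine ⟨N, ∑ a, y a • LinearMap.proj a, hN, fun v => ?_⟩
  have h1 : toQ v = ∑ a, (v a : ℚ) • toQ (Pi.single a 1) := by
    ext b
    rw [Finset.sum_apply]
    simp only [Pi.smul_apply, toQ_apply, smul_eq_mul]
    rw [Finset.sum_eq_single b]
    · simp
    · intro a _ hab
      rw [Pi.single_eq_of_ne (Ne.symm hab)]
      simp
    · intro hb
      exact absurd (Finset.mem_univ b) hb
  rw [h1, map_sum, Finset.mul_sum, LinearMap.sum_apply]
  push_cast
  refine Finset.sum_congr rfl fun a _ => ?_
  rw [map_smul, LinearMap.smul_apply, LinearMap.proj_apply, smul_eq_mul, smul_eq_mul]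
  push_cast
  rw [hy]
  ring

end Pool.Agent.FAC
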