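import Mathlib

/-!
# Frames: bases of a vector space consisting of given vectors
-/

namespace Pool.Agent.FAC

variable {ρ r : ℕ}

/-- A basis of `ℚ ^ ρ` consisting of vectors of the family `W`. -/
structure Frame (W : Fin r → (Fin ρ → ℚ)) where
  e : Fin ρ → Fin r
  li : LinearIndependent ℚ (fun a => W (e a))

namespace Frame

variable {W : Fin r → (Fin ρ → ℚ)}

instance finite_frame : Finite (Frame W) := by
  apply Finite.of_injective (fun F : Frame W => F.e)
  rintro ⟨e, h⟩ ⟨e', h'⟩ (h : e = e')
  subst h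
  rfl

variable (F : Frame W)

/-- The basis. -/
noncomputable def basis : Module.Basis (Fin ρ) ℚ (Fin ρ → ℚ) :=
  basisOfLinearIndependentOfCardEqFinrank' _ F.li (by simp)

theorem basis_apply (a : Fin ρ) : F.basis a = W (F.e a) := by
  simp [basis]

/-- The coordinates. -/
noncomputable def co (a : Fin ρ) : (Fin ρ → ℚ) →ₗ[ℚ] ℚ := F.basis.coord a

theorem sum_co (v : Fin ρ → ℚ) : ∑ a, F.co a v • W (F.e a) = v := by
  have h := F.basis.sum_repr v
  simp only [basis_apply] at h
  exact h

theorem co_e (a b : Fin ρ) : F.co b (W (F.e a)) = if a = b then 1 else 0 := by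
  rw [← F.basis_apply a, co, Module.Basis.coord_apply, Module.Basis.repr_self,
    Finsupp.single_apply]

theorem co_sum (x : Fin ρ → ℚ) (b : Fin ρ) : F.co b (∑ a, x a • W (F.e a)) = x b := by
  rw [map_sum]
  simp only [map_smul, co_e, smul_eq_mul, mul_ite, mul_one, mul_zero]
  rw [Finset.sum_ite_eq']
  simp

theorem co_unique {v : Fin ρ → ℚ} {x : Fin ρ → ℚ} (h : ∑ a, x a • W (F.e a) = v)
    (b : Fin ρ) : F.co b v = x b := by
  rw [← h, co_sum]

theorem ext_co {v v' : Fin ρ → ℚ} (h : ∀ a, F.co a v = F.co a v') : v = v' := by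
  rw [← F.sum_co v, ← F.sum_co v']
  simp only [h]

theorem e_injective : Function.Injective F.e := by
  intro a b h
  have h1 := F.co_e a b
  rw [h, F.co_e b b] at h1
  by_contra hne
  simp [hne] at h1

/-- A vector in the cone of the frame. -/
def Feas (v : Fin ρ → ℚ) : Prop := ∀ a, 0 ≤ F.co a v

theorem sum_update (a : Fin ρ) (k : Fin r) (x : Fin ρ → ℚ) :
    ∑ b, x b • W (Function.update F.e a k b) =
      x a • W k + ∑ b ∈ Finset.univ.erase a, x b • W (F.e b) := by
  rw [← Finset.add_sum_erase _ _ (Finset.mem_univ a), Function.update_self]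
  congr 1
  refine Finset.sum_congr rfl fun b hb => ?_
  rw [Function.update_of_ne (Finset.ne_of_mem_erase hb)]

/-- Exchange of the vector with index `a` by the vector `W k`. -/
def pivot (a : Fin ρ) (k : Fin r) (h : F.co a (W k) ≠ 0) : Frame W where
  e := Function.update F.e a k
  li := by
    rw [Fintype.linearIndependent_iff]
    intro y hy
    rw [sum_update] at hy
    have h1 : ∀ c, y a * F.co c (W k) + (if c = a then 0 else y c) = 0 := by
      intro c
      have h2 := congrArg (F.co c) hy
      rw [map_add, map_smul, map_sum, map_zero] at h2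
      simp only [map_smul, co_e, smul_eq_mul, mul_ite, mul_one, mul_zero] at h2
      rw [Finset.sum_ite_eq'] at h2
      refine Eq.trans ?_ h2
      congr 1
      by_cases hc : c = a
      · rw [if_pos hc, if_neg (by simp [hc])]
      · rw [if_neg hc, if_pos (by simp [hc])]
    have h3 : y a = 0 := by
      have h4 := h1 a
      simp only [if_true, add_zero] at h4
      exact (mul_eq_zero.mp h4).resolve_right h
    intro c
    by_cases hc : c = a
    · rw [hc, h3]
    · have h4 := h1 c
      rw [h3, if_neg hc, zero_mul, zero_add] at h4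
      exact h4

theorem pivot_e_self (a : Fin ρ) (k : Fin r) (h : F.co a (W k) ≠ 0) :
    (F.pivot a k h).e a = k := Function.update_self ..

theorem pivot_e_ne (a : Fin ρ) (k : Fin r) (h : F.co a (W k) ≠ 0) {b : Fin ρ} (hb : b ≠ a) :
    (F.pivot a k h).e b = F.e b := Function.update_of_ne hb ..

theorem co_pivot (a : Fin ρ) (k : Fin r) (h : F.co a (W k) ≠ 0) (v : Fin ρ → ℚ) (b : Fin ρ) :
    (F.pivot a k h).co b v = if b = a then F.co a v / F.co a (W k)
      else F.co b v - F.co a v * F.co b (W k) / F.co a (W k) := by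
  apply co_unique
  have h0 : (F.pivot a k h).e = Function.update F.e a k := rfl
  rw [h0]
  rw [F.sum_update a k (fun b => if b = a then F.co a v / F.co a (W k)
      else F.co b v - F.co a v * F.co b (W k) / F.co a (W k))]
  apply F.ext_co
  intro c
  rw [map_add, map_smul, map_sum]
  simp only [map_smul, co_e, smul_eq_mul, mul_ite, mul_one, mul_zero, if_true]
  rw [Finset.sum_ite_eq']
  by_cases hc : c = a
  · subst hc
    simp only [Finset.mem_erase, ne_eq, not_true_eq_false, Finset.mem_univ, and_true,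
      if_false, add_zero]
    field_simp
  · simp only [Finset.mem_erase, ne_eq, hc, not_false_eq_true, Finset.mem_univ, and_true,
      if_true, if_false]
    field_simp
    ring

/-- A ratio test: a wall of the chamber of `u` met by the ray in the direction `-μ`. -/
theorem exists_wall (u μ : Fin ρ → ℚ)
    (hgen : ∀ (F : Frame W) (i l : Fin ρ), i ≠ l → 0 < F.co i μ →
      F.co i μ * F.co l u ≠ F.co l μ * F.co i u)
    (hex : ∃ F : Frame W, F.Feas u ∧ ∃ i, 0 < F.co i μ) :
    ∃ F : Frame W, F.Feas u ∧ ∃ i, 0 < F.co i μ ∧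
      ∀ k, ∀ hk : 0 < F.co i (W k), (F.pivot i k hk.ne').Feas u := by
  classical
  let S : Set (Frame W × Fin ρ) := {p | p.1.Feas u ∧ 0 < p.1.co p.2 μ}
  have hS : S.Nonempty := by
    obtain ⟨F, hF, i, hi⟩ := hex
    exact ⟨(F, i), hF, hi⟩
  obtain ⟨⟨F, i⟩, ⟨hF, hi⟩, hmin⟩ :=
    Set.exists_min_image S (fun p => p.1.co p.2 u / p.1.co p.2 μ) (Set.toFinite S) hS
  simp only at hF hi
  refine ⟨F, hF, i, hi, ?_⟩
  set t : ℚ := F.co i u / F.co i μ with ht
  have ht0 : 0 ≤ t := div_nonneg (hF i) hi.le
  have hmin' : ∀ (F' : Frame W) (l : Fin ρ), F'.Feas u → 0 < F'.co l μ →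
      t ≤ F'.co l u / F'.co l μ := fun F' l h1 h2 => hmin (F', l) ⟨h1, h2⟩
  -- the point `v` on the wall
  have hv : ∀ l, l ≠ i → 0 < F.co l u - t * F.co l μ := by
    intro l hl
    have h1 : F.co l u - t * F.co l μ ≠ 0 := by
      intro h0
      apply hgen F i l (Ne.symm hl) hi
      have h2 : F.co l u = t * F.co l μ := by linarith
      rw [h2, ht]
      field_simp
    by_contra hcon
    have h2 : F.co l u - t * F.co l μ < 0 := lt_of_le_of_ne (not_lt.mp hcon) h1
    have h3 : 0 < t * F.co l μ := lt_of_le_of_lt (hF l) (by linarith)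
    have h4 : 0 < F.co l μ := (pos_iff_pos_of_mul_pos h3).mp (lt_of_le_of_ne ht0
      (fun h => by rw [← h, zero_mul] at h3; exact lt_irrefl _ h3))
    have h5 := hmin' F l hF h4
    rw [le_div_iff₀ h4] at h5
    linarith
  intro k hk
  by_contra hcon
  unfold Feas at hcon
  push Not at hcon
  obtain ⟨b, hb⟩ := hcon
  rw [co_pivot] at hb
  have hbi : b ≠ i := by
    intro h
    rw [if_pos h] at hb
    exact absurd (div_nonneg (hF i) hk.le) (not_le.mpr hb)
  rw [if_neg hbi] at hb
  have hub := hF b
  have hui := hF i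
  have h1 : F.co b u * F.co i (W k) < F.co i u * F.co b (W k) := by
    have h2 : F.co b u < F.co i u * F.co b (W k) / F.co i (W k) := by linarith
    rwa [lt_div_iff₀ hk] at h2
  have hcb : 0 < F.co b (W k) := by
    by_contra h
    have h2 : F.co i u * F.co b (W k) ≤ 0 := mul_nonpos_of_nonneg_of_nonpos hui (not_lt.mp h)
    have h3 : 0 ≤ F.co b u * F.co i (W k) := mul_nonneg hub hk.le
    linarith
  obtain ⟨l, hl, hlmin⟩ := Set.exists_min_image {l | 0 < F.co l (W k)}
    (fun l => F.co l u / F.co l (W k)) (Set.toFinite _) ⟨b, hcb⟩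
  have hl : 0 < F.co l (W k) := hl
  have hlb : F.co l u / F.co l (W k) ≤ F.co b u / F.co b (W k) := hlmin b hcb
  have hli : l ≠ i := by
    rintro rfl
    rw [div_le_div_iff₀ hk hcb] at hlb
    linarith
  have hfe : (F.pivot l k hl.ne').Feas u := by
    intro a
    rw [co_pivot]
    split_ifs with ha
    · exact div_nonneg (hF l) hl.le
    · have hua := hF a
      rcases le_or_gt (F.co a (W k)) 0 with h2 | h2
      · have h3 : F.co l u * F.co a (W k) / F.co l (W k) ≤ 0 :=
          div_nonpos_of_nonpos_of_nonneg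
            (mul_nonpos_of_nonneg_of_nonpos (hF l) h2) hl.le
        linarith
      · have h3 : F.co l u / F.co l (W k) ≤ F.co a u / F.co a (W k) := hlmin a h2
        rw [div_le_div_iff₀ hl h2] at h3
        have h4 : F.co l u * F.co a (W k) / F.co l (W k) ≤ F.co a u := by
          rw [div_le_iff₀ hl]
          linarith
        linarith
  have h5 := hfe i
  have h6 := co_pivot F l k hl.ne' u i
  have h7 := co_pivot F l k hl.ne' μ i
  rw [if_neg (Ne.symm hli)] at h6 h7
  have hvl := hv l hli
  have hti : F.co i u = t * F.co i μ := by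
    rw [ht]
    field_simp
  have h8 : (F.pivot l k hl.ne').co i u < t * (F.pivot l k hl.ne').co i μ := by
    rw [h6, h7, hti]
    have h9 : 0 < (F.co l u - t * F.co l μ) * F.co i (W k) / F.co l (W k) := by positivity
    have h10 : t * F.co i μ - F.co l u * F.co i (W k) / F.co l (W k) =
        t * (F.co i μ - F.co l μ * F.co i (W k) / F.co l (W k)) -
          (F.co l u - t * F.co l μ) * F.co i (W k) / F.co l (W k) := by ring
    rw [h10]
    linarith
  have h11 : 0 < t * (F.pivot l k hl.ne').co i μ := lt_of_le_of_lt h5 h8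
  have h12 : 0 < (F.pivot l k hl.ne').co i μ := (pos_iff_pos_of_mul_pos h11).mp
    (lt_of_le_of_ne ht0 (fun h => by rw [← h, zero_mul] at h11; exact lt_irrefl _ h11))
  have h13 := hmin' _ i hfe h12
  rw [le_div_iff₀ h12] at h13
  linarith

end Frame

end Pool.Agent.FAC
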